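import Mathlib

set_option autoImplicit false

open TopologicalSpace

namespace Pool.Agent.H8.SSep

/-- A topological group `G` is S-separable if, for every Hausdorff topological group `H` all of
whose closed subgroups are separable, every closed subgroup of `G × H` is separable. -/
def SSeparable (G : Type) [Group G] [TopologicalSpace G] : Prop :=
  ∀ (H : Type) [Group H] [TopologicalSpace H] [IsTopologicalGroup H] [T2Space H],
    (∀ K : Subgroup H, IsClosed (K : Set H) → SeparableSpace K) →
    ∀ C : Subgroup (G × H), IsClosed (C : Set (G × H)) → SeparableSpace C

end Pool.Agent.H8.SSep
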