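import Mathlib

set_option autoImplicit false

open TopologicalSpace Topology

namespace Pool.Agent.H8.SSep

/-- `i : X → F` exhibits the topological group `F` as the (Markov) free topological group on `X`:
`X` is a subspace of `F` generating it algebraically, and every continuous map from `X` to a
Hausdorff topological group extends to a continuous homomorphism on `F`. -/
structure IsFreeTopGroup {X F : Type} [TopologicalSpace X] [Group F] [TopologicalSpace F]
    (i : X → F) : Prop where
  isTopologicalGroup : IsTopologicalGroup F
  isEmbedding : IsEmbedding i
  generates : Subgroup.closure (Set.range i) = ⊤
  extend : ∀ (G : Type) [Group G] [TopologicalSpace G] [IsTopologicalGroup G] [T2Space G]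
    (f : X → G), Continuous f → ∃ φ : F →* G, Continuous φ ∧ ∀ x, φ (i x) = f x

/-- The abstract free group on `X`, with the finest group topology for which the inclusion of `X`
is continuous. -/
def MarkovFree (X : Type) : Type := FreeGroup X

instance (X : Type) : Group (MarkovFree X) := inferInstanceAs (Group (FreeGroup X))

instance MarkovFree.top (X : Type) [TopologicalSpace X] : TopologicalSpace (MarkovFree X) :=
  (GroupTopology.coinduced (FreeGroup.of : X → FreeGroup X)).toTopologicalSpace

/-- The inclusion of the generators. -/
def MarkovFree.of {X : Type} (x : X) : MarkovFree X := FreeGroup.of x

end Pool.Agent.H8.SSep
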