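import Pool.Agent.H8.SSep.Main3
import Pool.Agent.H8.SSep.FreeDefs

set_option autoImplicit false

open TopologicalSpace Set Topology

namespace Pool.Agent.H8.SSep

noncomputable section

theorem markov_itg (X : Type) [TopologicalSpace X] : IsTopologicalGroup (MarkovFree X) :=
  (GroupTopology.coinduced (FreeGroup.of : X → FreeGroup X)).toIsTopologicalGroup

/-- Extension of maps. -/
def mlift {X G : Type} [Group G] (f : X → G) : MarkovFree X →* G :=
  (FreeGroup.lift f : FreeGroup X →* G)

theorem mlift_of {X G : Type} [Group G] (f : X → G) (x : X) : mlift f (MarkovFree.of x) = f x := by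
  have h : (FreeGroup.lift f : FreeGroup X →* G) (FreeGroup.of x) = f x := by simp
  exact h

theorem lift_cont {X : Type} [TopologicalSpace X] (G : Type) [Group G] [t : TopologicalSpace G]
    [IsTopologicalGroup G] (f : X → G) (hf : Continuous f) : Continuous (mlift f) := by
  let T : GroupTopology (FreeGroup X) :=
    { toTopologicalSpace := t.induced (FreeGroup.lift f : FreeGroup X →* G)
      toIsTopologicalGroup := topologicalGroup_induced (FreeGroup.lift f : FreeGroup X →* G) }
  have h1 : (GroupTopology.coinduced (FreeGroup.of : X → FreeGroup X)) ≤ T := by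
    apply sInf_le
    change TopologicalSpace.coinduced _ _ ≤ T.toTopologicalSpace
    rw [← continuous_iff_coinduced_le]
    change Continuous[_, t.induced (FreeGroup.lift f : FreeGroup X →* G)] (FreeGroup.of : X → FreeGroup X)
    rw [continuous_induced_rng]
    convert hf using 1
    ext x
    simp
  rw [continuous_iff_le_induced]
  exact h1

theorem of_cont (X : Type) [TopologicalSpace X] : Continuous (MarkovFree.of : X → MarkovFree X) :=
  GroupTopology.coinduced_continuous (FreeGroup.of : X → FreeGroup X)

theorem markov_free : IsFreeTopGroup (MarkovFree.of : Icc (0 : ℝ) 1 → MarkovFree (Icc (0 : ℝ) 1)) where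
  isTopologicalGroup := markov_itg _
  isEmbedding := by
    let f : Icc (0 : ℝ) 1 → Multiplicative ℝ := fun x => Multiplicative.ofAdd (x : ℝ)
    have hf : IsEmbedding f := (Homeomorph.refl ℝ).isEmbedding.comp IsEmbedding.subtypeVal
    have h1 := lift_cont (Multiplicative ℝ) f hf.continuous
    refine IsEmbedding.of_comp (of_cont _) h1 ?_
    have h2 : (mlift f) ∘ MarkovFree.of = f := by
      ext x
      exact mlift_of f x
    rw [h2]
    exact hf
  generates := FreeGroup.closure_range_of _
  extend := by
    intro G _ _ _ _ f hf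
    exact ⟨mlift f, lift_cont G f hf, fun x => mlift_of f x⟩

/-- The topology of `MarkovFree X` is the finest group topology with continuous inclusion. -/
theorem markov_finest (X : Type) [TopologicalSpace X] (t : TopologicalSpace (MarkovFree X))
    (ht : @IsTopologicalGroup (MarkovFree X) t _)
    (hc : @Continuous X (MarkovFree X) _ t MarkovFree.of) :
    MarkovFree.top X ≤ t := by
  let T : GroupTopology (FreeGroup X) :=
    { toTopologicalSpace := t
      toIsTopologicalGroup := ht }
  have h1 : (GroupTopology.coinduced (FreeGroup.of : X → FreeGroup X)) ≤ T := by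
    apply sInf_le
    change TopologicalSpace.coinduced _ _ ≤ T.toTopologicalSpace
    rw [← continuous_iff_coinduced_le]
    exact hc
  exact h1

theorem free_not (F : Type) [Group F] [TopologicalSpace F] (i : Icc (0 : ℝ) 1 → F)
    (h : IsFreeTopGroup i) : ¬ SSeparable F := by
  obtain ⟨φ, hφ, hφi⟩ := h.extend (Multiplicative ℝ) (fun x => Multiplicative.ofAdd (x : ℝ))
    (continuous_ofAdd.comp continuous_subtype_val)
  apply not_of_hom F φ hφ
  intro r
  have h1 : Multiplicative.ofAdd (Int.fract r.toAdd) ∈ range φ :=
    ⟨i ⟨Int.fract r.toAdd, Int.fract_nonneg _, (Int.fract_lt_one _).le⟩, hφi _⟩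
  obtain ⟨a, ha⟩ := h1
  refine ⟨a * (i ⟨1, zero_le_one, le_rfl⟩) ^ ⌊r.toAdd⌋, ?_⟩
  rw [map_mul, map_zpow, ha, hφi, ← ofAdd_zsmul, ← ofAdd_add]
  simp only [zsmul_eq_mul, mul_one]
  rw [Int.fract_add_floor]
  rfl

end

end Pool.Agent.H8.SSep
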