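import Mathlib

set_option autoImplicit false

open MeasureTheory TopologicalSpace Set UnitAddTorus

namespace Pool.Agent.H8.SSep

noncomputable section

theorem mF_add {d : Type*} [Fintype d] (m : d → ℤ) (x y : UnitAddTorus d) :
    mFourier m (x + y) = mFourier m x * mFourier m y := by
  simp only [mFourier, ContinuousMap.coe_mk, Pi.add_apply, fourier_apply, ← Finset.prod_mul_distrib]
  congr 1
  ext i
  rw [smul_add, AddCircle.toCircle_add, Circle.coe_mul]

/-- Invariant means kill nontrivial characters. -/
theorem int_zero {d : Type*} [Fintype d] {K : Type*} [AddGroup K] [MeasurableSpace K]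
    [TopologicalSpace K] [BorelSpace K] [IsTopologicalAddGroup K] [CompactSpace K]
    (μ : Measure K) [μ.IsAddLeftInvariant] (φ : K →+ UnitAddTorus d)
    (m : d → ℤ) (hk : ∃ k, mFourier m (φ k) ≠ 1) : ∫ k, mFourier m (φ k) ∂μ = 0 := by
  obtain ⟨k, hk⟩ := hk
  have h1 : ∫ x, mFourier m (φ (k + x)) ∂μ = ∫ x, mFourier m (φ x) ∂μ :=
    integral_add_left_eq_self (fun x => mFourier m (φ x)) k
  have h2 : ∫ x, mFourier m (φ (k + x)) ∂μ = mFourier m (φ k) * ∫ x, mFourier m (φ x) ∂μ := by
    rw [← integral_const_mul]
    congr 1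
    ext x
    rw [map_add, mF_add]
  rw [h1] at h2
  have h3 : (1 - mFourier m (φ k)) * ∫ x, mFourier m (φ x) ∂μ = 0 := by
    rw [sub_mul, one_mul]
    exact sub_eq_zero.2 h2
  rcases mul_eq_zero.1 h3 with h | h
  · exact absurd (sub_eq_zero.1 h).symm hk
  · exact h

/-- The integral as a continuous linear functional. -/
def LK {X : Type*} [TopologicalSpace X] [CompactSpace X] [MeasurableSpace X] [BorelSpace X]
    (μ : Measure X) [IsFiniteMeasure μ] {Y : Type*} [TopologicalSpace Y] [CompactSpace Y]
    (φ : X → Y) (hφ : Continuous φ) : C(Y, ℂ) →L[ℂ] ℂ :=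
  LinearMap.mkContinuous
    { toFun := fun f => ∫ x, f (φ x) ∂μ
      map_add' := fun f g => by
        have h1 : Integrable (fun x => f (φ x)) μ :=
          (f.continuous.comp hφ).integrable_of_hasCompactSupport (HasCompactSupport.of_compactSpace _)
        have h2 : Integrable (fun x => g (φ x)) μ :=
          (g.continuous.comp hφ).integrable_of_hasCompactSupport (HasCompactSupport.of_compactSpace _)
        simp only [ContinuousMap.add_apply]
        exact integral_add h1 h2
      map_smul' := fun c f => by
        simp only [ContinuousMap.smul_apply, RingHom.id_apply]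
        exact integral_smul c _ }
    (μ.real univ) (fun f => by
      change ‖∫ x, f (φ x) ∂μ‖ ≤ μ.real univ * ‖f‖
      rw [mul_comm]
      exact norm_integral_le_of_norm_le_const (Filter.Eventually.of_forall fun x => f.norm_coe_le_norm _))

theorem LK_apply {X : Type*} [TopologicalSpace X] [CompactSpace X] [MeasurableSpace X] [BorelSpace X]
    (μ : Measure X) [IsFiniteMeasure μ] {Y : Type*} [TopologicalSpace Y] [CompactSpace Y]
    (φ : X → Y) (hφ : Continuous φ) (f : C(Y, ℂ)) : LK μ φ hφ f = ∫ x, f (φ x) ∂μ := rfl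

theorem kron {d : Type} [Fintype d] (K : AddSubgroup (UnitAddTorus d))
    (hK : IsClosed (K : Set (UnitAddTorus d)))
    (h : ∀ m : d → ℤ, m ≠ 0 → ∃ k ∈ K, mFourier m k ≠ 1) : K = ⊤ := by
  have : CompactSpace K := isCompact_iff_compactSpace.1 hK.isCompact
  let μ : Measure K := Measure.addHaarMeasure ⊤
  let ν : Measure (UnitAddTorus d) := Measure.addHaarMeasure ⊤
  have hμ : IsProbabilityMeasure μ := ⟨by
    have := Measure.addHaarMeasure_self (G := K) (K₀ := ⊤)
    simpa using this⟩
  have hν : IsProbabilityMeasure ν := ⟨by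
    have := Measure.addHaarMeasure_self (G := UnitAddTorus d) (K₀ := ⊤)
    simpa using this⟩
  have key : LK μ (fun x : K => (x : UnitAddTorus d)) continuous_subtype_val =
      LK ν (fun x => x) continuous_id := by
    apply ContinuousLinearMap.ext_on (s := range (mFourier (d := d)))
    · rw [dense_iff_closure_eq, ← Submodule.topologicalClosure_coe, span_mFourier_closure_eq_top]
      rfl
    · rintro _ ⟨m, rfl⟩
      rw [LK_apply, LK_apply]
      by_cases hm : m = 0
      · subst hm
        simp [mFourier_zero]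
      · obtain ⟨k, hk1, hk2⟩ := h m hm
        have e1 : ∫ x : K, mFourier m (x : UnitAddTorus d) ∂μ = 0 :=
          int_zero μ K.subtype m ⟨⟨k, hk1⟩, hk2⟩
        have e2 : ∫ x, mFourier m x ∂ν = 0 := int_zero ν (AddMonoidHom.id _) m ⟨k, hk2⟩
        rw [e1, e2]
  by_contra hne
  have hx : ∃ x, x ∉ K := by
    by_contra h1
    push Not at h1
    exact hne (by ext x; simp [h1 x])
  obtain ⟨x, hx⟩ := hx
  let f : C(UnitAddTorus d, ℂ) := ⟨fun y => ((Metric.infDist y (K : Set (UnitAddTorus d)) : ℝ) : ℂ), by
    exact Complex.continuous_ofReal.comp (Metric.continuous_infDist_pt _)⟩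
  have h1 := congrArg (fun L => L f) key
  simp only [LK_apply] at h1
  have h2 : ∫ x : K, f x ∂μ = 0 := by
    have : ∀ x : K, f x = 0 := by
      intro x
      simp only [f, ContinuousMap.coe_mk]
      rw [Metric.infDist_zero_of_mem x.2]
      simp
    simp [this]
  rw [h2] at h1
  simp only [f, ContinuousMap.coe_mk] at h1
  rw [integral_complex_ofReal] at h1
  have h3 : 0 < ∫ y, Metric.infDist y (K : Set (UnitAddTorus d)) ∂ν := by
    apply Continuous.integral_pos_of_hasCompactSupport_nonneg_nonzero (Metric.continuous_infDist_pt _)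
      (HasCompactSupport.of_compactSpace _) (fun y => Metric.infDist_nonneg) (x := x)
    intro h4
    have h5 : x ∈ closure (K : Set (UnitAddTorus d)) :=
      (Metric.mem_closure_iff_infDist_zero ⟨0, K.zero_mem⟩).2 h4
    rw [hK.closure_eq] at h5
    exact hx h5
  have h4 : ∫ y, Metric.infDist y (K : Set (UnitAddTorus d)) ∂ν = 0 := by exact_mod_cast h1.symm
  linarith

end

end Pool.Agent.H8.SSep
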