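import Pool.Agent.H8.SSep.Kron
import Pool.Agent.H8.SSep.Defs

set_option autoImplicit false

open TopologicalSpace Set UnitAddTorus

namespace Pool.Agent.H8.SSep

noncomputable section

theorem mF_one {d : Type} [Fintype d] (M : d → ℤ) (x : d → ℝ)
    (h : mFourier M (fun i => ((x i : ℝ) : UnitAddCircle)) = 1) :
    ∃ k : ℤ, ∑ i, (M i : ℝ) * x i = k := by
  simp only [mFourier, ContinuousMap.coe_mk, fourier_coe_apply] at h
  rw [← Complex.exp_sum, Complex.exp_eq_one_iff] at h
  obtain ⟨k, hk⟩ := h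
  refine ⟨k, ?_⟩
  have h1 : (2 * Real.pi * Complex.I) * (∑ i, (M i : ℂ) * x i) = (2 * Real.pi * Complex.I) * k := by
    rw [mul_comm _ (k : ℂ), ← hk, Finset.mul_sum]
    apply Finset.sum_congr rfl
    intro i _
    push_cast
    ring
  have h2 := mul_left_cancel₀ Complex.two_pi_I_ne_zero h1
  exact_mod_cast h2

variable {J : Type} (b c : J → ℝ)

/-- The embedding in the line. -/
def ee : (J →₀ ℤ) →+ ℝ := (Finsupp.linearCombination ℤ b).toAddMonoidHom

theorem ee_single [DecidableEq J] (j : J) (k : ℤ) : ee b (Finsupp.single j k) = k * b j := by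
  simp [ee]

/-- The map to the torus. -/
def chi : (J →₀ ℤ) →+ (J → UnitAddCircle) where
  toFun n j := ((b j * ee b n + c j * (n j : ℝ) : ℝ) : UnitAddCircle)
  map_zero' := by
    ext j
    simp
  map_add' n m := by
    ext j
    rw [Pi.add_apply, map_add, Finsupp.add_apply, ← AddCircle.coe_add]
    congr 1
    push_cast
    ring

theorem chi_apply (n : J →₀ ℤ) (j : J) :
    chi b c n j = ((b j * ee b n + c j * (n j : ℝ) : ℝ) : UnitAddCircle) := rfl

theorem dense_pair (hb : LinearIndependent ℤ b) (hc : ∀ j, ∃ k : ℤ, 2 * c j = k) (n m : J →₀ ℤ)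
    (hnm : ∀ p q : ℤ, p * ee b n + q * ee b m = 0 → p = 0 ∧ q = 0) :
    Dense (range fun pq : ℤ × ℤ => chi b c (pq.1 • n + pq.2 • m)) := by
  classical
  rw [dense_iff_inter_open]
  rintro U hU ⟨f, hf⟩
  obtain ⟨I, u, hu, hIU⟩ := isOpen_pi_iff.1 hU f hf
  let ψ : ℤ × ℤ →+ UnitAddTorus I :=
    { toFun := fun pq i => chi b c ((2 * pq.1) • n + (2 * pq.2) • m) i
      map_zero' := by
        ext i
        simp
      map_add' := fun x y => by
        ext i
        have h1 : (2 * (x + y).1) • n + (2 * (x + y).2) • m =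
            ((2 * x.1) • n + (2 * x.2) • m) + ((2 * y.1) • n + (2 * y.2) • m) := by
          simp only [Prod.fst_add, Prod.snd_add, mul_add, add_smul]
          abel
        rw [h1, map_add]
        rfl }
  have hψ : ∀ pq i, ψ pq i = chi b c ((2 * pq.1) • n + (2 * pq.2) • m) i := fun _ _ => rfl
  have hK : ψ.range.topologicalClosure = ⊤ := by
    apply kron _ ψ.range.isClosed_topologicalClosure
    intro M hM
    by_contra hcon
    push Not at hcon
    have hτ : (∑ i : I, (M i : ℝ) * b i) ≠ 0 := by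
      intro h0
      apply hM
      have h1 := Fintype.linearIndependent_iff.1 (hb.comp (Subtype.val : I → J) Subtype.val_injective) M
        (by simpa using h0)
      ext i
      exact h1 i
    have hint : ∀ p q : ℤ, ∃ k : ℤ, (∑ i : I, (M i : ℝ) * b i) * (2 * (p * ee b n + q * ee b m)) = k := by
      intro p q
      have h1 := hcon (ψ (p, q)) (ψ.range.le_topologicalClosure ⟨(p, q), rfl⟩)
      have h2 : ψ (p, q) = fun i : I =>
          ((b i * ee b ((2 * p) • n + (2 * q) • m) + c i * ((((2 * p) • n + (2 * q) • m) (i : J) : ℤ) : ℝ) : ℝ) :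
          UnitAddCircle) := rfl
      rw [h2] at h1
      obtain ⟨k, hk⟩ := mF_one _ _ h1
      choose kc hkc using hc
      refine ⟨k - ∑ i : I, M i * (kc i * (p * n (i : J) + q * m (i : J))), ?_⟩
      have h3 : ee b ((2 * p) • n + (2 * q) • m) = 2 * (p * ee b n + q * ee b m) := by
        rw [map_add, map_zsmul, map_zsmul]
        simp only [zsmul_eq_mul]
        push_cast
        ring
      rw [h3] at hk
      push_cast
      rw [← hk, Finset.sum_mul, ← Finset.sum_sub_distrib]
      apply Finset.sum_congr rfl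
      intro i _
      rw [← hkc]
      simp only [Finsupp.add_apply, Finsupp.smul_apply, smul_eq_mul]
      push_cast
      ring
    obtain ⟨P, hP⟩ := hint 1 0
    obtain ⟨Q, hQ⟩ := hint 0 1
    simp only [Int.cast_one, Int.cast_zero, one_mul, zero_mul, add_zero, zero_add] at hP hQ
    have h1 : (Q : ℝ) * ee b n + ((-P : ℤ) : ℝ) * ee b m = 0 := by
      push_cast
      rw [← hP, ← hQ]
      ring
    obtain ⟨h2, h3⟩ := hnm _ _ h1
    have h4 : P = 0 := by omega
    rw [h4, Int.cast_zero] at hP
    have h5 : ee b n = 0 := by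
      rcases mul_eq_zero.1 hP with h | h
      · exact absurd h hτ
      · linarith
    have h6 := hnm 1 0 (by rw [h5]; simp)
    exact one_ne_zero h6.1
  have h1 : (fun i : I => f i) ∈ closure (ψ.range : Set (UnitAddTorus I)) := by
    rw [← AddSubgroup.topologicalClosure_coe, hK]
    trivial
  have h2 : IsOpen (Set.univ.pi fun i : I => u i) :=
    isOpen_set_pi finite_univ fun i _ => (hu i i.2).1
  obtain ⟨y, hy1, ⟨pq, rfl⟩⟩ := mem_closure_iff.1 h1 _ h2 (fun i _ => (hu i i.2).2)
  refine ⟨chi b c ((2 * pq.1) • n + (2 * pq.2) • m), hIU ?_, ⟨(2 * pq.1, 2 * pq.2), rfl⟩⟩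
  intro i hi
  exact hy1 ⟨i, hi⟩ trivial

end

end Pool.Agent.H8.SSep
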