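import Pool.Agent.H8.SSep.Main

set_option autoImplicit false

open TopologicalSpace Set UnitAddTorus Topology

namespace Pool.Agent.H8.SSep

noncomputable section

variable {J : Type} (b c : J → ℝ)

/-- The group `H`. -/
abbrev HH : Type := Multiplicative (chi b c).range

/-- The parametrisation of `H`. -/
def gg : Multiplicative (J →₀ ℤ) →* HH b c :=
  AddMonoidHom.toMultiplicative (chi b c).rangeRestrict

/-- The coordinates. -/
def co (h : HH b c) : J → UnitAddCircle := (h.toAdd : J → UnitAddCircle)

theorem co_ind : IsInducing (co b c) := by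
  have h1 : IsInducing (fun h : HH b c => h.toAdd) := (Homeomorph.refl _).isInducing
  exact IsInducing.subtypeVal.comp h1

theorem co_gg (n : J →₀ ℤ) : co b c (gg b c (Multiplicative.ofAdd n)) = chi b c n := rfl

theorem gg_surj (h : HH b c) : ∃ n : J →₀ ℤ, gg b c (Multiplicative.ofAdd n) = h := by
  obtain ⟨n, hn⟩ := (chi b c).rangeRestrict_surjective h.toAdd
  exact ⟨n, hn⟩

theorem sub_sep (hb : LinearIndependent ℤ b) (hc : ∀ j, ∃ k : ℤ, 2 * c j = k)
    (K : Subgroup (HH b c)) : SeparableSpace K := by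
  by_cases h : ∃ n m : J →₀ ℤ, gg b c (Multiplicative.ofAdd n) ∈ K ∧
      gg b c (Multiplicative.ofAdd m) ∈ K ∧
      ∀ p q : ℤ, p * ee b n + q * ee b m = 0 → p = 0 ∧ q = 0
  · obtain ⟨n, m, hn, hm, hnm⟩ := h
    have hd := dense_pair b c hb hc n m hnm
    have hmem : ∀ pq : ℤ × ℤ, gg b c (Multiplicative.ofAdd (pq.1 • n + pq.2 • m)) ∈ K := by
      intro pq
      have : gg b c (Multiplicative.ofAdd (pq.1 • n + pq.2 • m)) =
          gg b c (Multiplicative.ofAdd n) ^ pq.1 * gg b c (Multiplicative.ofAdd m) ^ pq.2 := by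
        rw [ofAdd_add, ofAdd_zsmul, ofAdd_zsmul, map_mul, map_zpow, map_zpow]
      rw [this]
      exact K.mul_mem (K.zpow_mem hn _) (K.zpow_mem hm _)
    refine ⟨range fun pq : ℤ × ℤ => (⟨_, hmem pq⟩ : K), countable_range _, ?_⟩
    have hind : IsInducing (fun k : K => co b c k) := (co_ind b c).comp IsInducing.subtypeVal
    rw [dense_iff_inter_open]
    rintro U hU ⟨x, hx⟩
    obtain ⟨W, hW, rfl⟩ := hind.isOpen_iff.1 hU
    obtain ⟨y, hy, ⟨pq, rfl⟩⟩ := dense_iff_inter_open.1 hd W hW ⟨_, hx⟩
    exact ⟨⟨_, hmem pq⟩, hy, ⟨pq, rfl⟩⟩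
  · push Not at h
    have hinj : Function.Injective (ee b) := hb
    have hcount : ({n : J →₀ ℤ | gg b c (Multiplicative.ofAdd n) ∈ K}).Countable := by
      by_cases h0 : ∃ n0 : J →₀ ℤ, gg b c (Multiplicative.ofAdd n0) ∈ K ∧ n0 ≠ 0
      · obtain ⟨n0, hn0, hne⟩ := h0
        have hne' : ee b n0 ≠ 0 := by
          intro h1
          exact hne (hinj (by rw [h1, map_zero]))
        have h1 : (ee b '' {n : J →₀ ℤ | gg b c (Multiplicative.ofAdd n) ∈ K}) ⊆
            range (fun pq : ℤ × ℤ => -((pq.1 : ℝ) / pq.2) * ee b n0) := by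
          rintro _ ⟨m, hm, rfl⟩
          obtain ⟨p, q, h2, h3⟩ := h n0 m hn0 hm
          refine ⟨(p, q), ?_⟩
          have hq : (q : ℝ) ≠ 0 := by
            intro hq
            rw [hq, zero_mul, add_zero] at h2
            rcases mul_eq_zero.1 h2 with h4 | h4
            · exact h3 (by exact_mod_cast h4) (by exact_mod_cast hq)
            · exact hne' h4
          simp only
          field_simp
          linarith
        exact countable_of_injective_of_countable_image hinj.injOn ((countable_range _).mono h1)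
      · push Not at h0
        exact (countable_singleton (0 : J →₀ ℤ)).mono fun n hn => h0 n hn
    have hcK : Countable K := by
      have h1 : (K : Set (HH b c)) ⊆ (fun n => gg b c (Multiplicative.ofAdd n)) ''
          {n : J →₀ ℤ | gg b c (Multiplicative.ofAdd n) ∈ K} := by
        intro x hx
        obtain ⟨n, rfl⟩ := gg_surj b c x
        exact ⟨n, hx, rfl⟩
      exact ((hcount.image _).mono h1).to_subtype
    infer_instance

/-- The closed subgroup. -/
def CC : Subgroup (Multiplicative ℝ × HH b c) :=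
  ((AddMonoidHom.toMultiplicative (ee b)).prod (gg b c)).range

theorem CC_closed (hb : LinearIndependent ℤ b) (j0 j1 : J) (hj : j0 ≠ j1) (h0 : c j0 = 0)
    (h1 : c j1 = 0) : IsClosed (CC b c : Set (Multiplicative ℝ × HH b c)) := by
  have hind2 : ∀ p q : ℤ, p * b j0 + q * b j1 = 0 → p = 0 ∧ q = 0 := by
    classical
    intro p q h
    have hinj : Function.Injective (ee b) := hb
    have h3 : ee b (Finsupp.single j0 p + Finsupp.single j1 q) = 0 := by
      rw [map_add, ee_single, ee_single, h]
    have h4 : Finsupp.single j0 p + Finsupp.single j1 q = 0 := hinj (by rw [h3, map_zero])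
    have h5 := DFunLike.congr_fun h4 j0
    have h6 := DFunLike.congr_fun h4 j1
    simp [Finsupp.single_apply, hj, hj.symm] at h5 h6
    exact ⟨h5, h6⟩
  have key : (CC b c : Set (Multiplicative ℝ × HH b c)) =
      {p | ((b j0 * p.1.toAdd : ℝ) : UnitAddCircle) = co b c p.2 j0} ∩
      {p | ((b j1 * p.1.toAdd : ℝ) : UnitAddCircle) = co b c p.2 j1} := by
    ext ⟨r, h⟩
    constructor
    · rintro ⟨n, hn⟩
      have e1 : r = Multiplicative.ofAdd (ee b n.toAdd) := (congrArg Prod.fst hn).symm
      have e2 : h = gg b c n := (congrArg Prod.snd hn).symm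
      subst e1 e2
      constructor
      · change ((b j0 * ee b n.toAdd : ℝ) : UnitAddCircle) = chi b c n.toAdd j0
        rw [chi_apply, h0]; simp
      · change ((b j1 * ee b n.toAdd : ℝ) : UnitAddCircle) = chi b c n.toAdd j1
        rw [chi_apply, h1]; simp
    · rintro ⟨e0, e1⟩
      obtain ⟨n, rfl⟩ := gg_surj b c h
      refine ⟨Multiplicative.ofAdd n, ?_⟩
      simp only [mem_ofPred_eq] at e0 e1
      rw [co_gg, chi_apply] at e0 e1
      rw [h0] at e0
      rw [h1] at e1
      rw [zero_mul, add_zero] at e0 e1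
      have f : ∀ x y : ℝ, ((x : ℝ) : UnitAddCircle) = y → ∃ k : ℤ, x - y = k := by
        intro x y hxy
        rw [← sub_eq_zero, ← AddCircle.coe_sub, AddCircle.coe_eq_zero_iff] at hxy
        obtain ⟨k, hk⟩ := hxy
        exact ⟨k, by rw [← hk]; simp⟩
      obtain ⟨k0, hk0⟩ := f _ _ e0
      obtain ⟨k1, hk1⟩ := f _ _ e1
      have hx : r.toAdd = ee b n := by
        by_contra hne
        have hx : r.toAdd - ee b n ≠ 0 := sub_ne_zero.2 hne
        rw [← mul_sub] at hk0 hk1
        have h3 : (r.toAdd - ee b n) * ((k1 : ℝ) * b j0 + ((-k0 : ℤ) : ℝ) * b j1) = 0 := by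
          push_cast
          rw [← hk0, ← hk1]
          ring
        have h4 := hind2 _ _ ((mul_eq_zero.1 h3).resolve_left hx)
        have h5 : k0 = 0 := by omega
        rw [h5, Int.cast_zero] at hk0
        have h6 := (mul_eq_zero.1 hk0).resolve_right hx
        have h7 := hind2 1 0 (by rw [h6]; simp)
        exact one_ne_zero h7.1
      change (Multiplicative.ofAdd (ee b n), gg b c (Multiplicative.ofAdd n)) = _
      rw [← hx]
      rfl
  rw [key]
  have hc1 : Continuous fun p : Multiplicative ℝ × HH b c => p.1.toAdd := by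
    exact continuous_toAdd.comp continuous_fst
  have hc2 : ∀ j, Continuous fun p : Multiplicative ℝ × HH b c => co b c p.2 j := fun j =>
    (continuous_apply j).comp ((co_ind b c).continuous.comp continuous_snd)
  apply IsClosed.inter
  · exact isClosed_eq ((AddCircle.continuous_mk' _).comp (continuous_const.mul hc1)) (hc2 _)
  · exact isClosed_eq ((AddCircle.continuous_mk' _).comp (continuous_const.mul hc1)) (hc2 _)

theorem CC_nonsep (hJ : ¬ (univ : Set J).Countable) (S : Set J) (hS : S.Countable)
    (hc : ∀ j ∉ S, c j = 1 / 2) : ¬ SeparableSpace (CC b c) := by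
  classical
  rintro ⟨s, hs, hd⟩
  have hch : ∀ x : CC b c, ∃ n : J →₀ ℤ, (x : Multiplicative ℝ × HH b c) =
      (Multiplicative.ofAdd (ee b n), gg b c (Multiplicative.ofAdd n)) := by
    rintro ⟨x, ⟨n, hn⟩⟩
    exact ⟨n.toAdd, hn.symm⟩
  choose N hN using hch
  have hcount : (S ∪ ⋃ x ∈ s, ((N x).support : Set J)).Countable :=
    hS.union (hs.biUnion fun x _ => (N x).support.countable_toSet)
  have hex : ∃ j, j ∉ (S ∪ ⋃ x ∈ s, ((N x).support : Set J)) := by
    by_contra h
    push Not at h
    exact hJ (hcount.mono fun j _ => h j)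
  obtain ⟨j, hj⟩ := hex
  simp only [mem_union, not_or, mem_iUnion, not_exists] at hj
  obtain ⟨hjS, hjN⟩ := hj
  let F : CC b c → UnitAddCircle := fun x =>
    co b c (x : Multiplicative ℝ × HH b c).2 j -
      ((b j * (x : Multiplicative ℝ × HH b c).1.toAdd : ℝ) : UnitAddCircle)
  have hF : Continuous F := by
    have hc1 : Continuous fun p : CC b c => (p : Multiplicative ℝ × HH b c).1.toAdd :=
      continuous_toAdd.comp (continuous_fst.comp continuous_subtype_val)
    have hc2 : Continuous fun p : CC b c => co b c (p : Multiplicative ℝ × HH b c).2 j :=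
      (continuous_apply j).comp ((co_ind b c).continuous.comp
        (continuous_snd.comp continuous_subtype_val))
    exact hc2.sub ((AddCircle.continuous_mk' _).comp (continuous_const.mul hc1))
  have hFn : ∀ (x : CC b c) (n : J →₀ ℤ), (x : Multiplicative ℝ × HH b c) =
      (Multiplicative.ofAdd (ee b n), gg b c (Multiplicative.ofAdd n)) →
      F x = ((c j * (n j : ℝ) : ℝ) : UnitAddCircle) := by
    intro x n hx
    simp only [F, hx]
    rw [co_gg, chi_apply, ← AddCircle.coe_sub]
    congr 1
    simp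
  have h1 : ∀ x ∈ s, F x = 0 := by
    intro x hx
    rw [hFn x _ (hN x)]
    have : (N x) j = 0 := by
      by_contra h
      exact hjN x hx (by simpa using h)
    rw [this]
    simp
  have h2 : F = fun _ => 0 := by
    apply Continuous.ext_on hd hF continuous_const
    intro x hx
    exact h1 x hx
  let x0 : CC b c := ⟨(Multiplicative.ofAdd (ee b (Finsupp.single j 1)),
    gg b c (Multiplicative.ofAdd (Finsupp.single j 1))), ⟨Multiplicative.ofAdd (Finsupp.single j 1), rfl⟩⟩
  have h3 := hFn x0 _ rfl
  rw [h2, hc j hjS] at h3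
  simp only [Finsupp.single_eq_same, Int.cast_one, mul_one] at h3
  have h4 := h3.symm
  rw [AddCircle.coe_eq_zero_iff] at h4
  obtain ⟨k, hk⟩ := h4
  have h5 : (2 * k : ℤ) = 1 := by
    have : (2 * k : ℝ) = 1 := by
      rw [zsmul_eq_mul, mul_one] at hk
      rw [hk]; norm_num
    exact_mod_cast this
  omega

end

end Pool.Agent.H8.SSep
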