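import Pool.Agent.H8.SSep.Main2

set_option autoImplicit false

open TopologicalSpace Set UnitAddTorus Topology

namespace Pool.Agent.H8.SSep

noncomputable section

theorem exists_family : ∃ (J : Type) (b : J → ℝ), LinearIndependent ℤ b ∧
    ¬ (univ : Set J).Countable := by
  let B := Module.Basis.ofVectorSpace ℚ ℝ
  refine ⟨_, B, ?_, ?_⟩
  · apply B.linearIndependent.restrict_scalars
    intro x y hxy
    simpa using hxy
  · intro h
    have h1 : Countable (Module.Basis.ofVectorSpaceIndex ℚ ℝ) := by
      rwa [← countable_univ_iff]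
    have h2 : Countable (Module.Basis.ofVectorSpaceIndex ℚ ℝ →₀ ℚ) := inferInstance
    have h3 : Countable ℝ := B.repr.toEquiv.countable_iff.2 h2
    exact Set.not_countable_univ (α := ℝ) (countable_univ_iff.2 h3)

theorem HH_t2 {J : Type} (b c : J → ℝ) : T2Space (HH b c) :=
  inferInstanceAs (T2Space (chi b c).range)

/-- The key construction. -/
theorem main_ex : ∃ (H : Type) (_ : CommGroup H) (_ : TopologicalSpace H) (_ : IsTopologicalGroup H)
    (_ : T2Space H), (∀ K : Subgroup H, SeparableSpace K) ∧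
    ∃ C : Subgroup (Multiplicative ℝ × H), IsClosed (C : Set (Multiplicative ℝ × H)) ∧
      ¬ SeparableSpace C := by
  classical
  obtain ⟨J, b, hb, hJ⟩ := exists_family
  have hne : ∃ j0 j1 : J, j0 ≠ j1 := by
    by_contra h
    push Not at h
    apply hJ
    have : Subsingleton J := ⟨h⟩
    exact countable_univ
  obtain ⟨j0, j1, hj⟩ := hne
  let c : J → ℝ := fun j => if j = j0 ∨ j = j1 then 0 else 1 / 2
  have hc : ∀ j, ∃ k : ℤ, 2 * c j = k := by
    intro j
    by_cases h : j = j0 ∨ j = j1
    · exact ⟨0, by simp [c, h]⟩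
    · exact ⟨1, by simp [c, h]⟩
  refine ⟨HH b c, inferInstance, inferInstance, inferInstance, HH_t2 b c,
    fun K => sub_sep b c hb hc K, CC b c,
    CC_closed b c hb j0 j1 hj (by simp [c]) (by simp [c]), ?_⟩
  apply CC_nonsep b c hJ {j0, j1} (by simp)
  intro j hj'
  simp only [mem_insert_iff, mem_singleton_iff] at hj'
  simp [c, hj']

theorem not_of_hom (G : Type) [Group G] [TopologicalSpace G] (π : G →* Multiplicative ℝ)
    (hπ : Continuous π) (hs : Function.Surjective π) : ¬ SSeparable G := by
  intro h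
  obtain ⟨H, i1, i2, i3, i4, hK, C, hC, hn⟩ := main_ex
  apply hn
  let Φ : G × H →* Multiplicative ℝ × H := π.prodMap (MonoidHom.id H)
  have hΦ : Continuous Φ := hπ.prodMap continuous_id
  have hsep := h H (fun K _ => hK K) (C.comap Φ) (hC.preimage hΦ)
  let f : C.comap Φ → C := fun x => ⟨Φ x, x.2⟩
  have hf : Continuous f := (hΦ.comp continuous_subtype_val).subtype_mk _
  have hfs : Function.Surjective f := by
    rintro ⟨⟨r, y⟩, hy⟩
    obtain ⟨g, rfl⟩ := hs r
    exact ⟨⟨(g, y), hy⟩, rfl⟩
  exact hfs.denseRange.separableSpace hf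

theorem real_not : ¬ SSeparable (Multiplicative ℝ) :=
  not_of_hom _ (MonoidHom.id _) continuous_id Function.surjective_id

end

end Pool.Agent.H8.SSep
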